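import Pool.Agent.R991.FloExist

/-!
# MP_17669a_mp: antisymmetric complex potentials Floquet isospectral to zero
-/

set_option autoImplicit false

namespace Pool.Agent.R991.Flo

open Polynomial

/-- The Floquet matrix `L_V(z)`: diagonal entries `V`, entries `1` on the sub- and superdiagonal,
`z⁻¹` in position `(1, q)`, `z` in position `(q, 1)`, and zeros elsewhere (the indices `1, …, q`
are `0, …, q - 1` here; `q ≥ 3`). -/
noncomputable def floquetZ {q : ℕ} (V : Fin q → ℂ) (z : ℂ) : Matrix (Fin q) (Fin q) ℂ :=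
  Matrix.of fun i j =>
    if i = j then V i
    else if i.val + 1 = j.val ∨ j.val + 1 = i.val then 1
    else if i.val = 0 ∧ j.val + 1 = q then z⁻¹
    else if j.val = 0 ∧ i.val + 1 = q then z
    else 0

lemma charpoly_floquetZ (n : ℕ) (hn : 1 ≤ n) (v : ℕ → ℂ) (z : ℂ) (hz : z ≠ 0) :
    (floquetZ (fun j : Fin (2 + n) => v j.val) z).charpoly
      = (tm (xs v) (2 + n)).trace - C z - C z⁻¹ := by
  rw [← det_perJ n (C z) (C z⁻¹) (by rw [← C_mul, mul_inv_cancel₀ hz, C_1]) (xs v),
    Matrix.charpoly]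
  congr 1
  ext1 i j
  have hi := i.2
  have hj := j.2
  simp only [floquetZ, perJ, Matrix.charmatrix_apply, Matrix.of_apply, xs, Matrix.diagonal_apply]
  by_cases h1 : i = j
  · subst h1
    have c2 : ¬ (i.val = 0 ∧ i.val + 1 = 2 + n) := by omega
    have c3 : ¬ (i.val + 1 = i.val) := by omega
    rw [if_pos rfl, if_pos rfl, if_pos rfl, if_neg c2, if_neg c2, if_neg c3]
    ring
  · have h1' : i.val ≠ j.val := fun h' => h1 (Fin.ext h')
    rw [if_neg h1, if_neg h1, if_neg h1]
    by_cases h2 : i.val + 1 = j.val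
    · rw [if_pos (by tauto), if_pos h2, if_neg (by omega), if_neg (by omega), if_neg (by omega)]
      simp
    by_cases h3 : j.val + 1 = i.val
    · rw [if_pos (by tauto), if_neg h2, if_pos h3, if_neg (by omega), if_neg (by omega)]
      simp
    rw [if_neg (by tauto)]
    by_cases h4 : i.val = 0 ∧ j.val + 1 = 2 + n
    · rw [if_pos h4, if_neg h2, if_neg h3, if_pos h4, if_neg (by omega)]
      simp
    by_cases h5 : j.val = 0 ∧ i.val + 1 = 2 + n
    · rw [if_neg h4, if_pos h5, if_neg h2, if_neg h3, if_neg h4, if_pos h5]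
      simp
    · rw [if_neg h4, if_neg h5, if_neg h2, if_neg h3, if_neg h4, if_neg h5]
      simp

theorem exists_antisymmetric (n : ℕ) (hn : 2 ≤ n) :
    ∃ V : Fin (2 + n) → ℂ, V ≠ 0 ∧ (∀ j, V (Fin.rev j) = - V j) ∧
      ∀ z : ℂ, z ≠ 0 → (floquetZ V z).charpoly = (floquetZ (0 : Fin (2 + n) → ℂ) z).charpoly := by
  obtain ⟨u, hu0, hu⟩ := exists_root n hn
  refine ⟨fun j => ext (2 + n) u j.val, ?_, ?_, ?_⟩
  · intro h
    apply hu0
    funext j
    have hj := j.2
    have := congrFun h ⟨j.val, by omega⟩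
    simp only [ext, antisymmetric] at this
    rw [dif_pos (by omega), dif_pos hj] at this
    simpa using this
  · intro j
    have := ext_anti (2 + n) u j.val j.2
    rw [← this]
    dsimp only
    congr 1
    rw [Fin.val_rev]
    omega
  · intro z hz
    have h1 := charpoly_floquetZ n (by omega) (ext (2 + n) u) z hz
    have h2 := charpoly_floquetZ n (by omega) (fun _ => (0 : ℂ)) z hz
    have hD := D_of_root n (by omega) u hu
    have a1 := D_eq_trace n (by omega) (ext (2 + n) u)
    have a2 := D_eq_trace n (by omega) (fun _ => (0 : ℂ))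
    rw [ext_fun] at a1
    have a3 : (D (0 : Fin (2 + n) → ℂ)) = D (fun _ : Fin (2 + n) => (0 : ℂ)) := rfl
    rw [a1, a3, a2] at hD
    have h3 : (tm (xs (ext (2 + n) u)) (2 + n)).trace = (tm (xs (fun _ => (0 : ℂ))) (2 + n)).trace := by
      have h5 : ((-1 : ℂ[X]) ^ (2 + n)) * (-1) ^ (2 + n) = 1 := by rw [← mul_pow]; simp
      linear_combination (-1) ^ (2 + n) * hD - ((tm (xs (ext (2 + n) u)) (2 + n)).trace
        - (tm (xs (fun _ => (0 : ℂ))) (2 + n)).trace) * h5
    rw [h1, h3]
    exact h2.symm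

end Pool.Agent.R991.Flo

namespace Pool.Agent.Results.MP_17669a_mp.Antisymmetric

open Pool.Agent.R991.Flo

/-- For every `q > 3` there is a nonzero antisymmetric complex potential of period `q` which is
Floquet isospectral to the zero potential. -/
theorem result (q : ℕ) (hq : 3 < q) :
    ∃ V : Fin q → ℂ, V ≠ 0 ∧ (∀ j, V (Fin.rev j) = - V j) ∧
      ∀ z : ℂ, z ≠ 0 → (floquetZ V z).charpoly = (floquetZ (0 : Fin q → ℂ) z).charpoly := by
  obtain ⟨n, rfl⟩ : ∃ n, q = 2 + n := ⟨q - 2, by omega⟩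
  exact exists_antisymmetric n (by omega)

end Pool.Agent.Results.MP_17669a_mp.Antisymmetric
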